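import Pool.Agent.H37.CNK.Stmts

/-!
# Board cnk, row DRP: the p-th iterate of the derivation is the derivation itself
-/

set_option autoImplicit false

namespace Pool.CND

open Finset

/-- the Leibniz formula for iterates -/
theorem drp_leib {L : Type} [Field L] (D : L →+ L)
    (hm : ∀ x y : L, D (x * y) = x * D y + y * D x) (n : ℕ) (x y : L) :
    D^[n] (x * y) = ∑ ij ∈ antidiagonal n, n.choose ij.1 • (D^[ij.1] x * D^[ij.2] y) := by
  induction n with
  | zero => simp
  | succ n ih =>
    rw [Function.iterate_succ_apply', ih, map_sum,
      Finset.sum_antidiagonal_choose_succ_nsmul (fun i j => D^[i] x * D^[j] y) n,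
      ← Finset.sum_add_distrib]
    refine sum_congr rfl fun ij hij => ?_
    rw [HasAntidiagonal.mem_antidiagonal] at hij
    have hc : n.choose ij.2 = n.choose ij.1 := by
      rw [← hij]; exact (Nat.choose_symm_add).symm
    rw [map_nsmul, hm, hc, Function.iterate_succ_apply', Function.iterate_succ_apply', nsmul_add,
      mul_comm (D^[ij.2] y)]

theorem drp_thm (h1 : S_DRU) : S_DRP := by
  intro p k L G _ _ _ _ _ ρ t Δ hp hch hcov hD x
  have hL : CharP L p := charP_of_injective_algebraMap (algebraMap k L).injective p
  have h0 : Δ 0 = 0 := by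
    have := hD.add 0 0
    rw [add_zero] at this
    exact left_eq_add.mp this
  let D : L →+ L := { toFun := Δ, map_zero' := h0, map_add' := hD.add }
  have hDm : ∀ x y : L, D (x * y) = x * D y + y * D x := hD.mul
  have hadd : ∀ (n : ℕ) (x y : L), D^[n] (x + y) = D^[n] x + D^[n] y := by
    intro n
    induction n with
    | zero => intro x y; rfl
    | succ n ih => intro x y; rw [Function.iterate_succ_apply', ih, map_add,
        Function.iterate_succ_apply', Function.iterate_succ_apply']
  have hmul : ∀ x y : L, D^[p] (x * y) = x * D^[p] y + y * D^[p] x := by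
    intro x y
    rw [drp_leib D hDm p x y]
    have hne : ((0, p) : ℕ × ℕ) ≠ (p, 0) := by
      intro h
      exact hp.ne_zero (Prod.ext_iff.mp h).2
    rw [← Finset.sum_subset (s₁ := {((0, p) : ℕ × ℕ), (p, 0)})]
    · rw [Finset.sum_pair hne]
      simp [mul_comm]
    · intro a ha
      rw [Finset.mem_insert, Finset.mem_singleton] at ha
      rw [HasAntidiagonal.mem_antidiagonal]
      rcases ha with rfl | rfl <;> simp
    · intro a ha hna
      rw [HasAntidiagonal.mem_antidiagonal] at ha
      rw [Finset.mem_insert, Finset.mem_singleton, not_or] at hna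
      have h1 : a.1 ≠ 0 := by
        intro h
        apply hna.1
        ext
        · exact h
        · simp; omega
      have h2 : a.1 ≠ p := by
        intro h
        apply hna.2
        ext
        · exact h
        · simp; omega
      have h3 : p ∣ p.choose a.1 := hp.dvd_choose_self h1 (by omega)
      have h4 : ((p.choose a.1 : ℕ) : L) = 0 := (CharP.cast_eq_zero_iff L p _).mpr h3
      rw [nsmul_eq_mul, h4, zero_mul]
  have hcon : ∀ (n : ℕ) (c : k), D^[n + 1] (algebraMap k L c) = 0 := by
    intro n c
    induction n with
    | zero => exact hD.con c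
    | succ n ih => rw [Function.iterate_succ_apply', ih, map_zero]
  have hself : ∀ n : ℕ, D^[n] t = t := by
    intro n
    induction n with
    | zero => rfl
    | succ n ih => rw [Function.iterate_succ_apply', ih]; exact hD.self
  have key := h1 k L G ρ t (fun x => D^[p] x - D x) hcov
    (fun x y => by
      show D^[p] (x + y) - D (x + y) = _
      rw [hadd, map_add]; ring)
    (fun x y => by
      show D^[p] (x * y) - D (x * y) = _
      rw [hmul, hDm]; ring)
    (fun c => by
      show D^[p] (algebraMap k L c) - D (algebraMap k L c) = 0
      obtain ⟨m, rfl⟩ : ∃ m, p = m + 1 := ⟨p - 1, by have := hp.pos; omega⟩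
      rw [hcon, show D (algebraMap k L c) = 0 from hD.con c, sub_zero])
    (by
      show D^[p] t - D t = 0
      rw [hself, show D t = t from hD.self, sub_self])
    x
  exact sub_eq_zero.mp key

end Pool.CND
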